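import Pool.Agent.helper81.NW.Spec

set_option autoImplicit false

namespace Pool.Agent.helper81.NW

open Pool.Agent.helper84.NR
open scoped Classical
open Finset

/-- first shared index above `k` -/
noncomputable def HXG_up {V F : Type} (M : PMap V F) (x y : V) (B : F) (k : ℕ) : ℕ :=
  sInf {j | k < j ∧ sh M x y B j}

/-- the inverse map -/
noncomputable def HXG_f {V F : Type} (M : PMap V F) (x y : V) (p : ((_ : F) × ℕ) × Bool) :
    (_ : V) × Sym2 V :=
  if p.2 then ⟨ww M y p.1.1 p.1.2, s(ww M y p.1.1 p.1.2, ww M y p.1.1 (p.1.2 + 1))⟩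
  else ⟨ww M y p.1.1 (HXG_up M x y p.1.1 p.1.2),
    s(ww M y p.1.1 (HXG_up M x y p.1.1 p.1.2 - 1), ww M y p.1.1 (HXG_up M x y p.1.1 p.1.2))⟩

theorem HXG_go {V F : Type} (M : PMap V F) (x y : V) (B : F) (k : ℕ) (g A : F)
    (hB : OnV M.toCyc B y) (hgB : g ≠ B) (hg : OnE M.toCyc g s(ww M y B k, ww M y B (k + 1)))
    (hBk : OnE M.toCyc B s(ww M y B k, ww M y B (k + 1)))
    (hA : OnV M.toCyc A x) (hc : CL M x y g A) : ¬ go M x y ⟨B, k⟩ := by
  rintro ⟨g', hg', ho1, ho2⟩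
  change OnE M.toCyc g' s(ww M y B k, ww M y B (k + 1)) at hg'
  obtain ⟨g0, hg0, -, hall⟩ := M.two _ B hBk
  have h1 : g = g0 := by
    rcases hall g hg with h | h
    · exact absurd h hgB
    · exact h
  rcases hall g' hg' with h | h
  · subst h
    exact ho2 g' hB rfl
  · rw [← h1] at h
    subst h
    exact ho1 A hA hc.symm

theorem HXG (hWDN : WDN_stmt) : HXG_stmt := by
  intro V F _ _ M x y hNF
  have hkey : ((univ : Finset V).sigma (fun v => HX M x y v)).card ≤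
      (((gps M x y).filter (fun c => ¬ go M x y c)) ×ˢ (univ : Finset Bool)).card := by
    apply Finset.card_le_card_of_surjOn (HXG_f M x y)
    rintro ⟨v, h⟩ hvh
    have hvh' : h ∈ HX M x y v := by
      have := Finset.mem_coe.1 hvh
      exact (Finset.mem_sigma.1 this).2
    obtain ⟨hsh, hv, ⟨B, hB, k, hin, rfl⟩, hon, g, A, hg, hgy, hA, hc⟩ :=
      (Finset.mem_filter.1 hvh').2
    have hgB : g ≠ B := fun e => hgy (e ▸ hB)
    have hmem : ∀ k1, gp M x y B k1 → ∀ g' A', g' ≠ B →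
        OnE M.toCyc g' s(ww M y B k1, ww M y B (k1 + 1)) → OnV M.toCyc A' x →
        CL M x y g' A' → (⟨B, k1⟩ : (_ : F) × ℕ) ∈
          (gps M x y).filter (fun c => ¬ go M x y c) := by
      intro k1 hgp g' A' hne hE hA' hc'
      refine Finset.mem_filter.2 ⟨?_, HXG_go M x y B k1 g' A' hB hne hE ⟨_, rfl⟩ hA' hc'⟩
      obtain ⟨⟨h1, h2, A2, hA2, hA2'⟩, -, -⟩ := id hgp
      refine Finset.mem_sigma.2 ⟨?_, Finset.mem_filter.2 ⟨Finset.mem_range.2 h2, hgp⟩⟩
      exact Finset.mem_filter.2 ⟨Finset.mem_univ _, hB, A2, _, hA2, ⟨_, rfl⟩, hA2'⟩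
    obtain ⟨⟨a, hak, ha1, -⟩, b, hkb, hbs⟩ := id hin
    obtain ⟨⟨A3, hA3, hA3v⟩, -⟩ := hsh
    have hsb := hbs.2.1
    rcases Sym2.mem_iff.1 hv with hv | hv
    · have hsk : sh M x y B k := ⟨by omega, by omega, A3, hA3, hv ▸ hA3v⟩
      refine ⟨(⟨B, k⟩, true), ?_, ?_⟩
      · refine Finset.mem_coe.2 (Finset.mem_product.2 ⟨?_, Finset.mem_univ _⟩)
        exact hmem k ⟨hsk, ⟨b, hkb, hbs⟩, hon⟩ g A hgB hg hA hc
      · simp [HXG_f, hv]
    · have hsk : sh M x y B (k + 1) := ⟨by omega, by omega, A3, hA3, hv ▸ hA3v⟩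
      obtain ⟨k1, hk1, hno, hgp, g', hg'B, hg', hcg⟩ :=
        hWDN V F M x y hNF.ne B hB k hin hon g hgB hg
      have hup : HXG_up M x y B k1 = k + 1 := by
        unfold HXG_up
        apply le_antisymm
        · exact Nat.sInf_le (show k + 1 ∈ {j | k1 < j ∧ sh M x y B j} from ⟨by omega, hsk⟩)
        · apply le_csInf (show ({j | k1 < j ∧ sh M x y B j} : Set ℕ).Nonempty from ⟨k + 1, by omega, hsk⟩)
          rintro j ⟨hj1, hj2⟩
          by_contra hlt
          exact hno j hj1 (by omega) hj2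
      refine ⟨(⟨B, k1⟩, false), ?_, ?_⟩
      · refine Finset.mem_coe.2 (Finset.mem_product.2 ⟨?_, Finset.mem_univ _⟩)
        exact hmem k1 hgp g' A hg'B hg' hA (hcg.trans hc)
      · simp [HXG_f, hup, hv]
  rw [Finset.card_sigma, Finset.card_product] at hkey
  simpa [mul_comm] using hkey

end Pool.Agent.helper81.NW
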